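import Pool.Agent.W680.WH.Stm2
import Pool.Agent.W74.WH.Dr

/-!
# WHC-DRC: the derivative part is small for small `r`
-/

set_option autoImplicit false

open Pool.Agent.W680.WH ContinuousLinearMap Filter
open scoped ComplexConjugate InnerProductSpace

namespace Pool.Agent.W160.WH.DRC

theorem ab_mem (f : E) : Memℓp (fun n : ℤ => ((‖f n‖ : ℝ) : ℂ)) 2 := by
  have hf : Memℓp (fun n => f n) 2 := lp.memℓp f
  rw [memℓp_gen_iff (by norm_num)] at hf ⊢
  simpa using hf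

/-- the pointwise absolute value -/
noncomputable def ab (f : E) : E := ⟨fun n => ((‖f n‖ : ℝ) : ℂ), ab_mem f⟩

theorem ab_apply (f : E) (n : ℤ) : ab f n = ((‖f n‖ : ℝ) : ℂ) := rfl

theorem ab_norm (f : E) : ‖ab f‖ = ‖f‖ := by
  have h : ‖ab f‖ ^ 2 = ‖f‖ ^ 2 := by
    rw [E_norm_sq, E_norm_sq]
    refine tsum_congr fun n => ?_
    rw [ab_apply, Complex.norm_real, norm_norm]
  exact (pow_left_inj₀ (norm_nonneg _) (norm_nonneg _) two_ne_zero).1 h

/-- matrix expansion -/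
theorem expand (L : E →L[ℂ] E) (f : E) (m : ℤ) :
    HasSum (fun i => f i * (L (lp.single 2 i (1 : ℂ))) m) ((L f) m) := by
  have h1 : HasSum (fun i : ℤ => (lp.single 2 i (f i : ℂ) : E)) f :=
    lp.hasSum_single (by norm_num) f
  have h3 := h1.mapL ((lp.evalCLM ℂ (fun _ : ℤ => ℂ) 2 m).comp L)
  have e : (fun i : ℤ => ((lp.evalCLM ℂ (fun _ : ℤ => ℂ) 2 m).comp L) (lp.single 2 i (f i : ℂ))) =
      fun i => f i * (L (lp.single 2 i (1 : ℂ))) m := by
    funext i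
    have e1 : (lp.single 2 i (f i : ℂ) : E) = (f i) • (lp.single 2 i (1 : ℂ) : E) := by
      rw [← lp.single_smul, smul_eq_mul, mul_one]
    rw [e1, map_smul, smul_eq_mul]
    rfl
  rw [e] at h3
  exact h3

/-- the absolute values of the entries -/
noncomputable def kp (r : ℝ) (m i : ℤ) : ℝ :=
  if m = i then 0 else r ^ (m - i).natAbs / ((m - i).natAbs : ℝ) * Real.sqrt (om m / om i)

theorem kp_nonneg {r : ℝ} (hr : 0 ≤ r) (m i : ℤ) : 0 ≤ kp r m i := by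
  unfold kp
  split_ifs
  · exact le_rfl
  · positivity

theorem kp_le {r : ℝ} (hr : 0 ≤ r) (hr2 : r ≤ 1 / 2) (m i : ℤ) :
    kp r m i ≤ 2 * r * kp (1 / 2) m i := by
  unfold kp
  split_ifs with h
  · simp
  · have hk : 1 ≤ (m - i).natAbs := by omega
    obtain ⟨k, hk'⟩ : ∃ k, (m - i).natAbs = k + 1 := ⟨(m - i).natAbs - 1, by omega⟩
    rw [hk']
    have h1 : r ^ (k + 1) ≤ 2 * r * (1 / 2) ^ (k + 1) := by
      have h2 : r ^ k ≤ (1 / 2) ^ k := pow_le_pow_left₀ hr hr2 k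
      calc r ^ (k + 1) = r * r ^ k := by ring
        _ ≤ r * (1 / 2) ^ k := mul_le_mul_of_nonneg_left h2 hr
        _ = 2 * r * (1 / 2) ^ (k + 1) := by ring
    have h3 : 0 ≤ Real.sqrt (om m / om i) / ((k + 1 : ℕ) : ℝ) := by positivity
    calc r ^ (k + 1) / ((k + 1 : ℕ) : ℝ) * Real.sqrt (om m / om i)
        = r ^ (k + 1) * (Real.sqrt (om m / om i) / ((k + 1 : ℕ) : ℝ)) := by ring
      _ ≤ 2 * r * (1 / 2) ^ (k + 1) * (Real.sqrt (om m / om i) / ((k + 1 : ℕ) : ℝ)) :=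
          mul_le_mul_of_nonneg_right h1 h3
      _ = _ := by ring

theorem entry {r : ℝ} {L : E →L[ℂ] E} (h : LogMat r L) (m i : ℤ) :
    (L (lp.single 2 i (1 : ℂ))) m = -((kp r m i : ℝ) : ℂ) := by
  rw [h i m]
  unfold kp
  split_ifs
  · simp
  · push_cast
    ring

/-- domination by the operator for `1 / 2` -/
theorem dom {r : ℝ} (hr : 0 ≤ r) (hr2 : r ≤ 1 / 2) {L A : E →L[ℂ] E} (hL : LogMat r L)
    (hA : LogMat (1 / 2) A) (f : E) (m : ℤ) : ‖(L f) m‖ ≤ 2 * r * ‖(A (ab f)) m‖ := by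
  have h1 := expand L f m
  have h2 := expand A (ab f) m
  have e2 : (fun i => ab f i * (A (lp.single 2 i (1 : ℂ))) m) =
      fun i => (((-(‖f i‖ * kp (1 / 2) m i)) : ℝ) : ℂ) := by
    funext i
    rw [entry hA, ab_apply]
    push_cast
    ring
  rw [e2] at h2
  have h3 : Summable fun i => -(‖f i‖ * kp (1 / 2) m i) := Complex.summable_ofReal.1 h2.summable
  have h4 : Summable fun i => ‖f i‖ * kp (1 / 2) m i := by simpa using h3.neg
  have h5 : (A (ab f)) m = -((∑' i, ‖f i‖ * kp (1 / 2) m i : ℝ) : ℂ) := by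
    rw [← h2.tsum_eq, ← Complex.ofReal_tsum, tsum_neg]
    push_cast
    rfl
  have h6 : ‖(A (ab f)) m‖ = ∑' i, ‖f i‖ * kp (1 / 2) m i := by
    rw [h5, norm_neg, Complex.norm_real, Real.norm_of_nonneg]
    exact tsum_nonneg fun i => mul_nonneg (norm_nonneg _) (kp_nonneg (by norm_num) m i)
  rw [h6, ← tsum_mul_left, ← h1.tsum_eq]
  refine tsum_of_norm_bounded (h4.mul_left (2 * r)).hasSum fun i => ?_
  rw [entry hL, norm_mul, norm_neg, Complex.norm_real, Real.norm_of_nonneg (kp_nonneg hr m i)]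
  calc ‖f i‖ * kp r m i ≤ ‖f i‖ * (2 * r * kp (1 / 2) m i) :=
        mul_le_mul_of_nonneg_left (kp_le hr hr2 m i) (norm_nonneg _)
    _ = 2 * r * (‖f i‖ * kp (1 / 2) m i) := by ring

theorem bound {r : ℝ} (hr : 0 ≤ r) (hr2 : r ≤ 1 / 2) {L A : E →L[ℂ] E} (hL : LogMat r L)
    (hA : LogMat (1 / 2) A) : ‖L‖ ≤ 2 * r * ‖A‖ := by
  refine ContinuousLinearMap.opNorm_le_bound _ (by positivity) fun f => ?_
  have h1 : ‖L f‖ ^ 2 ≤ (2 * r * ‖A (ab f)‖) ^ 2 := by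
    rw [mul_pow, E_norm_sq, E_norm_sq, ← tsum_mul_left]
    refine (E_summable _).tsum_le_tsum (fun m => ?_) ((E_summable _).mul_left _)
    rw [← mul_pow]
    exact pow_le_pow_left₀ (norm_nonneg _) (dom hr hr2 hL hA f m) 2
  have h2 : ‖L f‖ ≤ 2 * r * ‖A (ab f)‖ :=
    (pow_le_pow_iff_left₀ (norm_nonneg _) (by positivity) two_ne_zero).1 h1
  calc ‖L f‖ ≤ 2 * r * ‖A (ab f)‖ := h2
    _ ≤ 2 * r * (‖A‖ * ‖ab f‖) := by gcongr; exact A.le_opNorm _
    _ = 2 * r * ‖A‖ * ‖f‖ := by rw [ab_norm]; ring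

theorem drc (h1 : S_LOG) (h3 : S_OPA) (h4 : S_INV) (h5 : S_OPJ) : S_DRC := by
  intro ε hε
  obtain ⟨A, hA, -⟩ := h1 (1 / 2) (by norm_num) (by norm_num)
  refine ⟨min (1 / 2) (ε / (2 * (‖A‖ + 1))), by positivity,
    lt_of_le_of_lt (min_le_left _ _) (by norm_num), ?_⟩
  intro r hr0 hrd
  have hr2 : r ≤ 1 / 2 := hrd.le.trans (min_le_left _ _)
  have hr1 : r < 1 := by linarith
  have hrε : r ≤ ε / (2 * (‖A‖ + 1)) := hrd.le.trans (min_le_right _ _)
  obtain ⟨L, hmat, hLZ, hjL, hjM, hcom⟩ := h1 r hr0 hr1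
  have hn : ‖(r : ℂ)‖ < 1 := by
    rw [Complex.norm_real, Real.norm_of_nonneg hr0]; exact hr1
  obtain ⟨i1, -, i3, i4, -, -⟩ := h4 (r : ℂ) hn
  obtain ⟨-, -, -, -, -, -, hjadd, hjsmul, -, -, -, -⟩ := h5
  refine ⟨(1 / 2 : ℂ) • (L - adjoint L), ?_, ?_, ?_, ?_⟩
  · rw [map_smulₛₗ, map_sub, adjoint_adjoint]
    have e : (starRingEnd ℂ) (1 / 2 : ℂ) = 1 / 2 := by
      rw [map_div₀, map_one]
      congr 1
      exact Complex.conj_ofNat 2
    rw [e]
    module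
  · intro f
    have hneg : ∀ g, jj (-g) = -jj g := by
      intro g
      have := hjsmul (-1) g
      simpa using this
    have e : (starRingEnd ℂ) (1 / 2 : ℂ) = 1 / 2 := by
      rw [map_div₀, map_one]
      congr 1
      exact Complex.conj_ofNat 2
    change jj ((1 / 2 : ℂ) • (L f - adjoint L f)) = (1 / 2 : ℂ) • (L (jj f) - adjoint L (jj f))
    rw [hjsmul, e, sub_eq_add_neg, hjadd, hneg, hjL, hjM, ← sub_eq_add_neg]
  · rw [norm_smul]
    have e : ‖(1 / 2 : ℂ)‖ = 1 / 2 := by norm_num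
    rw [e]
    have hb := bound hr0 hr2 hmat hA
    have hadj : ‖adjoint L‖ = ‖L‖ := LinearIsometryEquiv.norm_map _ _
    have hs := norm_sub_le L (adjoint L)
    have hq : r * (2 * (‖A‖ + 1)) ≤ ε := by
      rwa [le_div_iff₀ (by positivity)] at hrε
    nlinarith [norm_nonneg A]
  · intro G P P2 P2i hG hP hP2 hP2i
    have e : ((1 - r ^ 2 : ℝ) : ℂ) = 1 - (r : ℂ) ^ 2 := by push_cast; ring
    rw [e]
    refine Pool.Agent.W74.WH.Dr.core (r : ℂ) Z Z2 Zs G (Ring.inverse (1 - (r : ℂ) • Z2))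
      (Ring.inverse (1 - (r : ℂ) • Zs))
      L (adjoint L) _ X P P2 P2i _ h3.1.2.2.1 h3.1.2.2.2 ?_ ?_ ?_ ?_ ?_ ?_ hLZ rfl ?_ rfl rfl hP
      hP2 hP2i
    · rw [hG]; exact Ring.mul_inverse_cancel _ i1
    · rw [hG]; exact Ring.inverse_mul_cancel _ i1
    · exact Ring.mul_inverse_cancel _ i3
    · exact Ring.inverse_mul_cancel _ i3
    · exact Ring.mul_inverse_cancel _ i4
    · exact Ring.inverse_mul_cancel _ i4
    · exact hcom

end Pool.Agent.W160.WH.DRC
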