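import Pool.Agent.W680.WH.Stm

/-!
# WHH-WIE: Wiener lemma for unitary operators
-/

set_option autoImplicit false

open Pool.Agent.W680.WH ContinuousLinearMap Filter
open scoped ComplexConjugate InnerProductSpace

namespace Pool.Agent.W160.WH.WIE

theorem wie (h1 : S_CPT) : S_WIE := by
  intro K _ _ _ U x s η c hU1 hU2 hc hs
  obtain ⟨C, hC1, hC2, -, hC4, hC5, hC6⟩ := h1 K U x s η c hU1 hU2 hc hs
  have hsa : IsSelfAdjoint C := by
    rw [isSelfAdjoint_iff, ContinuousLinearMap.star_eq_adjoint]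
    exact hC2
  have hsym : C.IsSymmetric := hsa.isSymmetric
  -- a nonzero eigenvalue
  obtain ⟨μ, hμ, hμ0⟩ : ∃ μ : ℂ, Module.End.HasEigenvalue (C : Module.End ℂ K) μ ∧ μ ≠ 0 := by
    by_contra hcon
    push Not at hcon
    exact hC4 ((ContinuousLinearMap.eq_zero_of_forall_hasEigenvalue_eq_zero hC1 hsym).1 hcon)
  have hfin : FiniteDimensional ℂ (Module.End.eigenspace C.toLinearMap μ) :=
    ContinuousLinearMap.finite_dimensional_eigenspace hC1 μ hμ0
  obtain ⟨W, hW⟩ : ∃ W : Submodule ℂ K, W = Module.End.eigenspace C.toLinearMap μ := ⟨_, rfl⟩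
  rw [← hW] at hfin
  have hmem : ∀ v, v ∈ W ↔ C v = μ • v := by
    intro v
    rw [hW, Module.End.mem_eigenspace_iff]
    exact Iff.rfl
  have hnt : Nontrivial W := by
    obtain ⟨v, hv⟩ := hμ.exists_hasEigenvector
    have hv1 : v ∈ W := by
      rw [hmem]
      exact hv.apply_eq_smul
    exact ⟨⟨⟨v, hv1⟩, 0, fun h => hv.2 (congrArg Subtype.val h)⟩⟩
  have hinv : ∀ v ∈ W, U.toLinearMap v ∈ W := by
    intro v hv
    rw [hmem] at hv ⊢
    have h2 : C (U v) = U (C v) := by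
      have := congrArg (fun A : K →L[ℂ] K => A v) hC5
      exact this
    show C (U v) = μ • U v
    rw [h2, hv, map_smul]
  obtain ⟨l, hl⟩ := Module.End.exists_eigenvalue (U.toLinearMap.restrict hinv)
  obtain ⟨v, hv⟩ := hl.exists_hasEigenvector
  have hv1 : U (v : K) = l • (v : K) := congrArg Subtype.val hv.apply_eq_smul
  have hv0 : (v : K) ≠ 0 := fun h => hv.2 (Subtype.ext h)
  have hvC : C (v : K) = μ • (v : K) := (hmem _).1 v.2
  have hvn : (0 : ℝ) < ‖(v : K)‖ := norm_pos_iff.2 hv0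
  -- the modulus of the eigenvalue
  have hnorm : ‖U (v : K)‖ = ‖(v : K)‖ := by
    have h2 : adjoint U (U (v : K)) = v := by
      have := congrArg (fun A : K →L[ℂ] K => A (v : K)) hU1
      exact this
    have h3 : ⟪U (v : K), U (v : K)⟫_ℂ = ⟪(v : K), (v : K)⟫_ℂ := by
      rw [← ContinuousLinearMap.adjoint_inner_left, h2]
    have h4 : ‖U (v : K)‖ ^ 2 = ‖(v : K)‖ ^ 2 := by
      rw [← inner_self_eq_norm_sq (𝕜 := ℂ), ← inner_self_eq_norm_sq (𝕜 := ℂ), h3]
    exact (pow_left_inj₀ (norm_nonneg _) (norm_nonneg _) two_ne_zero).1 h4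
  have hl1 : ‖l‖ = 1 := by
    rw [hv1, norm_smul] at hnorm
    have h5 : (‖l‖ - 1) * ‖(v : K)‖ = 0 := by linarith
    rcases mul_eq_zero.1 h5 with h6 | h6
    · linarith
    · exact absurd h6 hvn.ne'
  refine ⟨l, v, hl1, hv1, fun hx => ?_⟩
  have h7 := hC6 v l hl1 hv1
  rw [hx, norm_zero, hvC, inner_smul_right] at h7
  have h8 : ⟪(v : K), (v : K)⟫_ℂ = ((‖(v : K)‖ ^ 2 : ℝ) : ℂ) := by
    rw [inner_self_eq_norm_sq_to_K]
    norm_cast
  -- the eigenvalue is real
  have h9 : conj μ = μ := by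
    have h10 : ⟪C (v : K), (v : K)⟫_ℂ = ⟪(v : K), C (v : K)⟫_ℂ := hsym (v : K) (v : K)
    rw [hvC, inner_smul_left, inner_smul_right, h8] at h10
    have h11 : ((‖(v : K)‖ ^ 2 : ℝ) : ℂ) ≠ 0 := by
      have : (‖(v : K)‖ ^ 2 : ℝ) ≠ 0 := by positivity
      exact_mod_cast this
    exact mul_right_cancel₀ h11 h10
  obtain ⟨m, hm⟩ := Complex.conj_eq_iff_real.1 h9
  rw [h8, hm, ← Complex.ofReal_mul, Complex.ofReal_re] at h7
  have h12 : m ≠ 0 := by
    intro h
    rw [h] at hm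
    exact hμ0 (by rw [hm]; simp)
  have h13 : m * ‖(v : K)‖ ^ 2 = 0 := by rw [h7]; norm_num
  rcases mul_eq_zero.1 h13 with h14 | h14
  · exact h12 h14
  · exact absurd h14 (by positivity)

end Pool.Agent.W160.WH.WIE
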